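import Mathlib
import Pool.Agent.Q150.SDSpace

/-!
# MP_e2e219_gt: the product of two strong `d`-spaces need not be a strong `d`-space
-/

set_option autoImplicit false

open Set Topology
open Pool.Agent.Q150.SDSpace

namespace Pool.Agent.Results.MP_e2e219_gt.TwoFactors

/-- **There are two strong `d`-spaces whose product is not a strong `d`-space.**  (The index set is the
two-element type `Bool`.) -/
theorem result : ∃ (X : Bool → Type) (_ : ∀ b, TopologicalSpace (X b)),
    (∀ b, StrongDSpace (X b)) ∧ ¬ StrongDSpace (∀ b, X b) := by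
  obtain ⟨I, J, hIf, hJf, hId, hJd, hdisj⟩ := exists_two
  have hf : ∀ b, XI.Free (KK I J b) := by rintro (_ | _); exacts [hIf, hJf]
  have hd : ∀ b, XI.DenseU (KK I J b) := by rintro (_ | _); exacts [hId, hJd]
  refine ⟨fun b => XI (KK I J b), inferInstance, fun b => XI.strong (hf b) (hd b), ?_⟩
  let U : Set (∀ b, XI (KK I J b)) := {z | ∃ (i : KK I J false) (j : KK I J true) (A : Set ℕ), A ∈ i.1 ∧ Aᶜ ∈ j.1 ∧
    z false ∈ XI.W i A ∧ z true ∈ XI.W j Aᶜ}
  refine not_strong (fun n b => XI.d n) ?_ (fun b => XI.x) U ?_ ?_ ?_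
  · intro m n hmn
    rw [sle_pi]
    intro b
    rw [XI.sle_iff_le (hf b)]
    exact hmn
  · have : U = ⋃ (i : KK I J false) (j : KK I J true) (A : Set ℕ) (_ : A ∈ i.1) (_ : Aᶜ ∈ j.1),
        ((fun z : ∀ b, XI (KK I J b) => z false) ⁻¹' XI.W i A ∩ (fun z : ∀ b, XI (KK I J b) => z true) ⁻¹' XI.W j Aᶜ) := by
      ext z
      simp only [U, mem_iUnion, mem_inter_iff, mem_preimage, mem_ofPred_eq, exists_prop]
    rw [this]
    refine isOpen_iUnion fun i => isOpen_iUnion fun j => isOpen_iUnion fun A => isOpen_iUnion fun hA =>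
      isOpen_iUnion fun hA' => ?_
    exact ((XI.isOpen_W i hA).preimage (continuous_apply false)).inter
      ((XI.isOpen_W j hA').preimage (continuous_apply true))
  · intro z hz hxz
    simp only [sle_pi] at hz hxz
    obtain ⟨i, hi⟩ := XI.eq_p (hf false) (fun n => hz n false) (hxz false)
    obtain ⟨j, hj⟩ := XI.eq_p (hf true) (fun n => hz n true) (hxz true)
    have hne : i.1 ≠ j.1 := by
      intro h
      exact Set.disjoint_left.mp hdisj i.2 (h ▸ j.2)
    obtain ⟨A, hA, hA'⟩ := exists_sep hne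
    exact ⟨i, j, A, hA, hA', Or.inl hi, Or.inl hj⟩
  · intro n
    refine ⟨fun b => XI.e n, ?_, ?_, ?_⟩
    · rw [sle_pi]
      intro b
      rw [XI.sle_iff_le (hf b)]
      exact le_refl n
    · rw [sle_pi]
      intro b
      rw [XI.sle_iff_le (hf b)]
      trivial
    · rintro ⟨i, j, A, -, -, h1, h2⟩
      rcases h1 with h1 | ⟨m, hm, h1⟩
      · cases h1
      · cases h1
        rcases h2 with h2 | ⟨m, hm', h2⟩
        · cases h2
        · cases h2
          exact hm' hm

end Pool.Agent.Results.MP_e2e219_gt.TwoFactors
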